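import Pool.Agent.Results.MP_1acd66_nt.AllForms
import Pool.Agent.X283.DA.CountPack

/-!
# The rational points with anticanonical heights in short intervals at real powers and at denominators, for all forms of
`(ℙ¹)ⁿ // SL₂` over `ℚ`, `n ≥ 5` odd, and all adelic metrics

`V_A` is the form of the smooth Fano variety `V_n = (ℙ¹)ⁿ // SL₂` given by the etale algebra `A` of odd degree `n ≥ 5`
over `ℚ` (for `n = 5` the quintic del Pezzo surfaces), with any countable family of adelic metrics on the anticanonical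
bundle. `0 ≤ θ ≤ 1`, `0 ≤ β ≤ 1`, `σ = 1 - β + θ`. For all `t > 1` outside a set of dimension at most `σ` (for almost
all `t` if `β > θ`), ALL these metrics and all large `j` there are at most `w ^ β` rational points of the open subset
with anticanonical height within `w ^ θ` of `w = t ^ κ_j` (`κ_j / log j → ∞`, for example `κ_j = j`); for `w = j ^ t`
the same with dimension `σ + 1 / a`, `t ≥ a`; and for almost all `x ∈ ℝ ^ d` and all large denominators `w = q` with
`‖q x_j - y_j‖ ≤ q ^ (-η_j)`, if `η_1 + ... + η_d > σ`.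
-/

set_option autoImplicit false

namespace Pool.Agent.Results.MP_1acd66_nt.AllFormsAtPowers

open NumberField Filter Topology
open Pool.Agent.X283.DA
open Pool.Agent.Results.MP_1acd66_nt.AllForms (Alg Tuple conjugates ht Distinct Equivalent RealFactor PadicFactor deg)

section

variable {s : Type} [Fintype s] [DecidableEq s] (K : s → Type) [∀ i, Field (K i)] [∀ i, NumberField (K i)]

/-- An adelic metric on the anticanonical bundle of `V_A`: positive continuous functions on `V_A(ℝ)` and on
`V_A(ℚ_p)`, `p` in a finite set `S`. -/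
structure Metric where
  /-- the finite set of primes -/
  S : Finset ℕ
  /-- these are prime numbers -/
  prime : ∀ p ∈ S, p.Prime
  /-- the real factor -/
  ψ : Tuple K → ℝ
  /-- it is positive and continuous on `V_A(ℝ)` -/
  real : RealFactor ψ
  /-- the factors at the primes of `S` -/
  φ : ℕ → Alg K × Alg K → ℝ
  /-- they are positive and continuous on `V_A(ℚ_p)` -/
  padic : ∀ p ∈ S, PadicFactor p (φ p)

/-- The rational points of the open subset of `V_A` given by `n` distinct points of the line: the classes of the pairs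
of elements of `A` with distinct conjugates. -/
def Points : Set (Set (Alg K × Alg K)) := {C | ∃ P, Distinct P ∧ C = {P' | Equivalent P P'}}

variable {K}

/-- The anticanonical height of a point for the metric `M` (the infimum over all pairs which give the point). -/
noncomputable def height (M : Metric K) (C : Set (Alg K × Alg K)) : ℝ :=
  sInf {r : ℝ | ∃ P, Distinct P ∧ C = {P' | Equivalent P P'} ∧
    r = ht P * (M.ψ (conjugates P) * ∏ p ∈ M.S, M.φ p P)}

/-- The three assertions for the metrics `M i` at once. -/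
def Bounds {ι : Type} (M : ι → Metric K) (θ β σ : ℝ) : Prop :=
  CountAtPowers (fun _ : ι => Points K) (fun i => height (M i)) θ β σ ∧
  CountAtExponents (fun _ : ι => Points K) (fun i => height (M i)) θ β σ ∧
  CountAtDenominators (fun _ : ι => Points K) (fun i => height (M i)) θ β σ

end

/-- **Theorem.** Let `A = ∏ K_i` be an etale algebra of odd degree `n ≥ 5` over `ℚ`, `V_A` the corresponding form of
`(ℙ¹)ⁿ // SL₂`, `0 ≤ θ ≤ 1`, `0 ≤ β ≤ 1`. For the rational points of the open subset of `V_A` and the anticanonical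
heights of the members of any countable family of adelic metrics at once, the assertions `CountAtPowers`,
`CountAtExponents` and `CountAtDenominators` hold with `σ = 1 - β + θ`. -/
theorem result {s : Type} [Fintype s] [DecidableEq s] (K : s → Type) [∀ i, Field (K i)]
    [∀ i, NumberField (K i)] (hodd : Odd (deg K)) (hn : 5 ≤ deg K) {ι : Type} [Countable ι] (M : ι → Metric K)
    (θ β : ℝ) (hθ : 0 ≤ θ) (hθ1 : θ ≤ 1) (hβ : 0 ≤ β) (hβ1 : β ≤ 1) : Bounds M θ β (1 - β + θ) := by
  classical
  refine count_pack (fun _ : ι => Points K) (fun i => height (M i)) (by norm_num) hθ hθ1 hβ hβ1 fun i => ?_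
  obtain ⟨c, hc, hlim⟩ := Pool.Agent.Results.MP_1acd66_nt.AllForms.result K hodd hn (M i).S (M i).prime (M i).ψ
    (M i).real (M i).φ (M i).padic
  obtain ⟨NS, hNS⟩ : ∃ NS : ℝ → Set (Set (Alg K × Alg K)), ∀ B, NS B = {C : Set (Alg K × Alg K) | ∃ P, Distinct P ∧
      C = {P' | Equivalent P P'} ∧ ht P * ((M i).ψ (conjugates P) * ∏ p ∈ (M i).S, (M i).φ p P) ≤ B} :=
    ⟨_, fun _ => rfl⟩
  set k : ℕ := Fintype.card s - 1 with hk
  have h1 : ∀ᶠ B : ℝ in atTop, c / 2 < ((NS B).ncard : ℝ) / (B * Real.log B ^ k) ∧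
      ((NS B).ncard : ℝ) / (B * Real.log B ^ k) < c + 1 := by
    have h2 := hlim.eventually (Ioo_mem_nhds (show c / 2 < c by linarith) (show c < c + 1 by linarith))
    filter_upwards [h2] with B hB
    rw [hNS B]
    exact ⟨hB.1, hB.2⟩
  obtain ⟨B₀, hB₀⟩ := eventually_atTop.1 h1
  set B₁ : ℝ := max B₀ 3 with hB₁
  have hB3 : 3 ≤ B₁ := le_max_right _ _
  have hbound : ∀ B : ℝ, B₁ ≤ B → (NS B).Finite ∧ ((NS B).ncard : ℝ) ≤ (c + 1) * (B * Real.log B ^ k) := by
    intro B hB
    obtain ⟨h3, h4⟩ := hB₀ B ((le_max_left _ _).trans hB)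
    have hlog : 0 < Real.log B := Real.log_pos (by linarith)
    have hpos : 0 < B * Real.log B ^ k := mul_pos (by linarith) (pow_pos hlog k)
    refine ⟨?_, ?_⟩
    · apply Set.finite_of_ncard_pos
      by_contra hcon
      rw [not_lt, Nat.le_zero] at hcon
      rw [hcon] at h3
      simp at h3
      linarith
    · rw [div_lt_iff₀ hpos] at h4
      exact h4.le
  intro ε hε
  set η : ℝ := ε / ((k : ℝ) + 1) with hη
  have hη0 : 0 < η := by positivity
  set L : ℝ := Real.log (2 * B₁) with hL
  have hL0 : 0 ≤ L := Real.log_nonneg (by linarith)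
  refine ⟨(c + 1) * (2 * B₁) * (L + 1 / η) ^ k, fun X hX => ?_⟩
  have hX0 : 0 < X := by linarith
  have hge : B₁ ≤ 2 * B₁ * X := by nlinarith
  obtain ⟨hfin, hcard⟩ := hbound (2 * B₁ * X) hge
  have hsub : {C | C ∈ Points K ∧ height (M i) C ≤ X} ⊆ NS (2 * B₁ * X) := by
    rintro C ⟨⟨P, hP, hCP⟩, h3⟩
    have h4 : height (M i) C < 2 * B₁ * X := by nlinarith
    obtain ⟨r, ⟨P', hP', hC', hr⟩, h5⟩ := exists_lt_of_csInf_lt
      (s := {r : ℝ | ∃ P, Distinct P ∧ C = {P' | Equivalent P P'} ∧
        r = ht P * ((M i).ψ (conjugates P) * ∏ p ∈ (M i).S, (M i).φ p P)}) ⟨_, P, hP, hCP, rfl⟩ h4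
    rw [hNS]
    refine ⟨P', hP', hC', ?_⟩
    rw [← hr]
    exact h5.le
  refine ⟨hfin.subset hsub, ?_⟩
  have h3 : ({C | C ∈ Points K ∧ height (M i) C ≤ X}.ncard : ℝ) ≤ ((NS (2 * B₁ * X)).ncard : ℝ) := by
    exact_mod_cast Set.ncard_le_ncard hsub hfin
  refine h3.trans (hcard.trans ?_)
  have h4 : 0 ≤ Real.log (2 * B₁ * X) := Real.log_nonneg (by nlinarith)
  have h5 : Real.log (2 * B₁ * X) ≤ (L + 1 / η) * X ^ η := by
    rw [Real.log_mul (by linarith) hX0.ne', ← hL]
    have h6 := Real.log_le_rpow_div hX0.le hη0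
    have h7 : (1 : ℝ) ≤ X ^ η := Real.one_le_rpow hX hη0.le
    have h9 : X ^ η / η = 1 / η * X ^ η := by ring
    rw [h9] at h6
    have h10 : L ≤ L * X ^ η := le_mul_of_one_le_right hL0 h7
    linarith
  have h6 : Real.log (2 * B₁ * X) ^ k ≤ (L + 1 / η) ^ k * X ^ ε := by
    calc Real.log (2 * B₁ * X) ^ k ≤ ((L + 1 / η) * X ^ η) ^ k := pow_le_pow_left₀ h4 h5 k
      _ = (L + 1 / η) ^ k * X ^ (η * k) := by rw [mul_pow, ← Real.rpow_natCast (X ^ η) k, ← Real.rpow_mul hX0.le]
      _ ≤ (L + 1 / η) ^ k * X ^ ε := by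
          apply mul_le_mul_of_nonneg_left _ (by positivity)
          apply Real.rpow_le_rpow_of_exponent_le hX
          rw [hη, div_mul_eq_mul_div, div_le_iff₀ (by positivity)]
          nlinarith
  calc (c + 1) * (2 * B₁ * X * Real.log (2 * B₁ * X) ^ k) ≤ (c + 1) * (2 * B₁ * X * ((L + 1 / η) ^ k * X ^ ε)) := by
        apply mul_le_mul_of_nonneg_left _ (by linarith)
        exact mul_le_mul_of_nonneg_left h6 (by positivity)
    _ = (c + 1) * (2 * B₁) * (L + 1 / η) ^ k * (X ^ (1 : ℝ) * X ^ ε) := by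
        rw [Real.rpow_one]
        ring
    _ = (c + 1) * (2 * B₁) * (L + 1 / η) ^ k * X ^ (1 + ε) := by rw [← Real.rpow_add hX0]

end Pool.Agent.Results.MP_1acd66_nt.AllFormsAtPowers
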