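import Pool.Agent.Results.MP_1acd66_nt.TrilinearOrder
import Pool.Agent.X283.DA.CountPack

/-!
# Rational points on all smooth divisors of type `(1,1,1)` in `ℙ² × ℙ² × ℙ²` with heights in short intervals at
real powers and at denominators of approximations

`h(P)` is the product of the heights of the three points, `h ^ 2` the anticanonical height, and
`0 ≤ θ ≤ 1`, `0 ≤ β ≤ 2`, `σ = 2 - β + θ`. For all `t > 1` outside a set of dimension at most `σ` (for almost
all `t` if `β > 1 + θ`), ALL smooth divisors `X_a` and all large `n` there are at most `w ^ β` rational points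
`P` of the open set `U` with `|h(P) - w| ≤ w ^ θ`, `w = t ^ κ_n` (`κ_n / log n → ∞`, for example `κ_n = n`); for
`w = n ^ t` the same with dimension `σ + 1 / a`, `t ≥ a`; and for almost all `x ∈ ℝ ^ d` and all large
denominators `w = q` with `‖q x_j - y_j‖ ≤ q ^ (-η_j)`, if `η_1 + ... + η_d > σ`.
-/

set_option autoImplicit false

namespace Pool.Agent.Results.MP_1acd66_nt.CountsAtPowersAndDenominators

open Pool.Agent.W978.QN
open Pool.Agent.X283.DA

/-- The rational points of the open subset `U` of the divisor `X_a` of type `(1,1,1)` given by the trilinear form with coefficients `a`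
(normalised primitive coordinates; `U` is the set where the three determinants do not vanish). -/
def Points (a : (Fin 3 → Fin 3) → ℤ) : Set (Fin 3 → Fin 3 → ℤ) := {P | (∀ i, Rep (P i)) ∧ tf a P = 0 ∧ InU a P}

/-- The height for the class `(1,1,1)`; its square is the anticanonical height. -/
noncomputable def height (P : Fin 3 → Fin 3 → ℤ) : ℝ := ∏ i, (nm (P i) : ℝ)

/-- **Theorem.** Let `0 ≤ θ ≤ 1`, `0 ≤ β ≤ 2`. For the rational points of the open sets `U` of all smooth divisors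
`X_a` of type `(1,1,1)` in `ℙ² × ℙ² × ℙ²` over `ℚ` at once, counted by the height `h` for the class `(1,1,1)`
(`h ^ 2` is the anticanonical height), the assertions `CountAtPowers`, `CountAtExponents` and
`CountAtDenominators` hold with `σ = 2 - β + θ`. -/
theorem result (θ β : ℝ) (hθ : 0 ≤ θ) (hθ1 : θ ≤ 1) (hβ : 0 ≤ β) (hβ2 : β ≤ 2) :
    CountAtPowers (fun a : {a : (Fin 3 → Fin 3) → ℤ // Smooth a} => Points a) (fun _ => height) θ β (2 - β + θ) ∧
    CountAtExponents (fun a : {a : (Fin 3 → Fin 3) → ℤ // Smooth a} => Points a) (fun _ => height) θ β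
      (2 - β + θ) ∧
    CountAtDenominators (fun a : {a : (Fin 3 → Fin 3) → ℤ // Smooth a} => Points a) (fun _ => height) θ β
      (2 - β + θ) := by
  classical
  refine count_pack _ _ (by norm_num) hθ hθ1 hβ hβ2 fun a => ?_
  obtain ⟨a, ha⟩ := a
  obtain ⟨-, c, C, T₀, hc, hC, h⟩ := Pool.Agent.Results.MP_1acd66_nt.TrilinearOrder.result a ha
  have hcnt : ∀ ε : ℝ, 0 < ε → ∃ C' : ℝ, ∀ X : ℝ, 1 ≤ X → {P | P ∈ Points a ∧ height P ≤ X}.Finite ∧
      ({P | P ∈ Points a ∧ height P ≤ X}.ncard : ℝ) ≤ C' * X ^ (2 + ε) := by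
    intro ε hε
    set T₁ : ℝ := max T₀ 3 with hT₁
    have hT3 : 3 ≤ T₁ := le_max_right _ _
    set η : ℝ := ε / 2 with hη
    have hη0 : 0 < η := by positivity
    refine ⟨C * T₁ * (Real.log T₁ + 2 / η) ^ 2, fun X hX => ?_⟩
    have hX0 : 0 < X := by linarith
    have hX2 : 1 ≤ X ^ 2 := by nlinarith
    have hT : T₀ ≤ T₁ * X ^ 2 := (le_max_left _ _).trans (by nlinarith)
    obtain ⟨h1, -, h2⟩ := h (T₁ * X ^ 2) hT
    have hsub : {P | P ∈ Points a ∧ height P ≤ X} ⊆ {P : Fin 3 → Fin 3 → ℤ | (∀ i, Rep (P i)) ∧ tf a P = 0 ∧ InU a P ∧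
        ∏ i, (nm (P i) : ℝ) ^ 2 ≤ T₁ * X ^ 2} := by
      rintro P ⟨⟨h3, h4, h5⟩, h6⟩
      refine ⟨h3, h4, h5, ?_⟩
      rw [Finset.prod_pow]
      have h7 : 0 ≤ height P := by
        apply Finset.prod_nonneg
        intro i _
        have : 0 ≤ nm (P i) := by
          unfold nm
          exact le_trans (abs_nonneg _) (le_max_right _ _)
        exact_mod_cast this
      have h8 : height P ^ 2 ≤ X ^ 2 := pow_le_pow_left₀ h7 h6 2
      have h9 : X ^ 2 ≤ T₁ * X ^ 2 := by nlinarith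
      exact h8.trans h9
    refine ⟨h1.subset hsub, ?_⟩
    have h3 : ({P | P ∈ Points a ∧ height P ≤ X}.ncard : ℝ) ≤ ({P : Fin 3 → Fin 3 → ℤ | (∀ i, Rep (P i)) ∧ tf a P = 0 ∧ InU a P ∧
        ∏ i, (nm (P i) : ℝ) ^ 2 ≤ T₁ * X ^ 2}.ncard : ℝ) := by
      exact_mod_cast Set.ncard_le_ncard hsub h1
    refine h3.trans (h2.trans ?_)
    have hl1 : 0 ≤ Real.log T₁ := Real.log_nonneg (by linarith)
    have h4 : Real.log (T₁ * X ^ 2) ≤ (Real.log T₁ + 2 / η) * X ^ η := by
      rw [Real.log_mul (by linarith) (by positivity), Real.log_pow]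
      have h6 := Real.log_le_rpow_div hX0.le hη0
      have h7 : (1 : ℝ) ≤ X ^ η := Real.one_le_rpow hX hη0.le
      have h9 : X ^ η / η = 1 / η * X ^ η := by ring
      rw [h9] at h6
      have h10 : Real.log T₁ ≤ Real.log T₁ * X ^ η := le_mul_of_one_le_right hl1 h7
      push_cast
      calc Real.log T₁ + 2 * Real.log X ≤ Real.log T₁ * X ^ η + 2 * (1 / η * X ^ η) := by linarith
        _ = (Real.log T₁ + 2 / η) * X ^ η := by ring
    have h5 : 0 ≤ Real.log (T₁ * X ^ 2) := Real.log_nonneg (by nlinarith)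
    have h6 : Real.log (T₁ * X ^ 2) ^ 2 ≤ (Real.log T₁ + 2 / η) ^ 2 * X ^ ε := by
      calc Real.log (T₁ * X ^ 2) ^ 2 ≤ ((Real.log T₁ + 2 / η) * X ^ η) ^ 2 := pow_le_pow_left₀ h5 h4 2
        _ = (Real.log T₁ + 2 / η) ^ 2 * X ^ ε := by
            rw [mul_pow, ← Real.rpow_natCast (X ^ η) 2, ← Real.rpow_mul hX0.le]
            congr 2
            rw [hη]
            push_cast
            ring
    calc C * (T₁ * X ^ 2) * Real.log (T₁ * X ^ 2) ^ 2 ≤ C * (T₁ * X ^ 2) * ((Real.log T₁ + 2 / η) ^ 2 * X ^ ε) :=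
          mul_le_mul_of_nonneg_left h6 (by positivity)
      _ = C * T₁ * (Real.log T₁ + 2 / η) ^ 2 * (X ^ (2 : ℝ) * X ^ ε) := by
          rw [← Real.rpow_natCast X 2]
          push_cast
          ring
      _ = C * T₁ * (Real.log T₁ + 2 / η) ^ 2 * X ^ (2 + ε) := by rw [← Real.rpow_add hX0]
  exact hcnt

end Pool.Agent.Results.MP_1acd66_nt.CountsAtPowersAndDenominators
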