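import Pool.Agent.Results.MP_1acd66_nt.AllForms
import Pool.Agent.X79.EQ.Gen

/-!
# Equidistribution of the rational points of bounded height on the forms of `(ℙ¹)ⁿ // SL₂`

Let `n ≥ 5` be odd and let `V_A` be the form of `V_n = (ℙ¹)ⁿ // SL₂` over `ℚ` given by an etale algebra
`A` of degree `n`, a product of `r` number fields (for `n = 5` the `V_A` are all quintic del Pezzo
surfaces over `ℚ`). Let `U` be the open subset of `V_A` given by `n` distinct points of the line.

Test functions are the uniform limits of continuous functions of finitely many positive continuous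
functions on `V_A(ℝ)` and on some `V_A(ℚ_p)`. A height `ht · m` is called continuous if `m` is a test
function which is bounded from below by a positive constant: for instance all adelic anticanonical
heights, and the maximum, the minimum or the sum of several adelic heights.

For every continuous height the number of points of `U(ℚ)` of height at most `B` is asymptotically
equal to `c ν(1/m) B (log B) ^ (r - 1)`, and these points are equidistributed: the mean of each test
function `w` over them tends to `ν(w/m) / ν(1/m)`. Here `ν` is one normalised positive linear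
functional on the test functions and `c > 0`, as in Peyre's conjecture. (It is not proved that `ν` is
given by the Tamagawa measure.)

The proof uses only that there is an asymptotic formula for each adelic height (`AllForms`); nothing is
needed about the constants. The second differences of the counting functions averaged over the
scales are small, so that the limits are differentiable in the height (`Pool.Agent.X79.EQ`).
-/

set_option autoImplicit false
set_option linter.unusedSectionVars false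

namespace Pool.Agent.Results.MP_1acd66_nt.Equidistribution

open NumberField FractionalIdeal Module Filter Topology ComplexConjugate
open scoped nonZeroDivisors
open Pool.Agent.Results.MP_1acd66_nt.AllForms (Alg Emb deg Tuple bracket conjugates size content ht
  Distinct Equivalent RealStable RealFactor Reduced PadicFactor)
open Pool.Agent.X79.EQ

section

variable {s : Type} [Fintype s] [DecidableEq s] {K : s → Type} [∀ i, Field (K i)]
  [∀ i, NumberField (K i)]

/-- `m` is the change of an adelic metric of the anticanonical bundle: the product of a positive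
continuous function on `V_A(ℝ)` and of such functions on `V_A(ℚ_p)` for finitely many primes `p` -/
def Factor (m : Alg K × Alg K → ℝ) : Prop :=
  ∃ (S : Finset ℕ) (ψ : Tuple K → ℝ) (φ : ℕ → Alg K × Alg K → ℝ), (∀ p ∈ S, p.Prime) ∧
    RealFactor ψ ∧ (∀ p ∈ S, PadicFactor p (φ p)) ∧
    ∀ P, Distinct P → m P = ψ (conjugates P) * ∏ p ∈ S, φ p P

/-- `w` is a test function: a uniform limit of continuous functions of finitely many factors -/
def Test (w : Alg K × Alg K → ℝ) : Prop :=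
  ∀ ε : ℝ, 0 < ε → ∃ (k : ℕ) (g : Fin k → Alg K × Alg K → ℝ) (Φ : (Fin k → ℝ) → ℝ),
    (∀ i, Factor (g i)) ∧ ContinuousOn Φ {y | ∀ i, 0 < y i} ∧
    ∀ P, Distinct P → |w P - Φ (fun i => g i P)| ≤ ε

/-- `ht · m` is a continuous height: `m` is a test function with values in some `[δ, ∞)`, `δ > 0` -/
def Change (m : Alg K × Alg K → ℝ) : Prop :=
  Test m ∧ ∃ δ : ℝ, 0 < δ ∧ ∀ P, Distinct P → δ ≤ m P

/-- the points (classes of pairs) with `ht · m ≤ B` -/
def below (m : Alg K × Alg K → ℝ) (B : ℝ) : Set (Set (Alg K × Alg K)) :=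
  {C | ∃ P, Distinct P ∧ C = {P' | Equivalent P P'} ∧ ht P * m P ≤ B}

/-- the value at a class of a function which is constant on the class -/
noncomputable def value (w : Alg K × Alg K → ℝ) (C : Set (Alg K × Alg K)) : ℝ := sSup (w '' C)

/-- the mean of `w` over the points with `ht · m ≤ B` -/
noncomputable def mean (m w : Alg K × Alg K → ℝ) (B : ℝ) : ℝ :=
  (∑ᶠ C ∈ below m B, value w C) / ((below m B).ncard : ℝ)

/-! ### additive forms of the factors -/

/-- logarithms of real factors -/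
def RealAdd (G : Tuple K → ℝ) : Prop :=
  (∃ M : ℝ, ∀ v, RealStable v → |G v| ≤ M) ∧
  ContinuousOn G {v | RealStable v} ∧
  (∀ v, RealStable v → ∀ a : Emb K → ℂ, (∀ e, a e ≠ 0) →
    (∀ (i : s) (σ : K i →+* ℂ), a ⟨i, ComplexEmbedding.conjugate σ⟩ = conj (a ⟨i, σ⟩)) →
    G (fun e => a e • v e) = G v) ∧
  (∀ v, RealStable v → ∀ a b c d : ℝ, a * d - b * c ≠ 0 →
    G (fun e => (a * (v e).1 + b * (v e).2, c * (v e).1 + d * (v e).2)) = G v)

/-- logarithms of `p`-adic factors -/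
def PadicAdd (p : ℕ) (γ : Alg K × Alg K → ℝ) : Prop :=
  (∃ M : ℝ, ∀ P, Distinct P → |γ P| ≤ M) ∧
  (∀ P P', Distinct P → Equivalent P P' → γ P' = γ P) ∧
  ∀ ε : ℝ, 0 < ε → ∃ k : ℕ, ∀ P P' : Alg K × Alg K, Distinct P → Distinct P' → Reduced p P →
    (∀ i, P'.1 i - P.1 i ∈ spanSingleton (𝓞 (K i))⁰ (p : K i) ^ k * content P i) →
    (∀ i, P'.2 i - P.2 i ∈ spanSingleton (𝓞 (K i))⁰ (p : K i) ^ k * content P i) →
    |γ P' - γ P| ≤ ε

lemma RealAdd.exp {G : Tuple K → ℝ} (h : RealAdd G) : RealFactor (fun v => Real.exp (G v)) := by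
  obtain ⟨⟨M, hM⟩, h2, h3, h4⟩ := h
  refine ⟨⟨Real.exp (-M), Real.exp M, Real.exp_pos _, fun v hv => ?_⟩, h2.rexp, ?_, ?_⟩
  · obtain ⟨h5, h6⟩ := abs_le.1 (hM v hv)
    exact ⟨Real.exp_le_exp.2 h5, Real.exp_le_exp.2 h6⟩
  · intro v hv a ha hc
    simp only [h3 v hv a ha hc]
  · intro v hv a b c d hd
    simp only [h4 v hv a b c d hd]

lemma log_bound {m M y : ℝ} (hm : 0 < m) (h1 : m ≤ y) (h2 : y ≤ M) :
    |Real.log y| ≤ |Real.log m| + |Real.log M| := by
  have hy : 0 < y := by linarith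
  have h3 := Real.log_le_log hm h1
  have h4 := Real.log_le_log hy h2
  rw [abs_le]
  constructor
  · have := neg_abs_le (Real.log m)
    have := abs_nonneg (Real.log M)
    linarith
  · have := le_abs_self (Real.log M)
    have := abs_nonneg (Real.log m)
    linarith

lemma log_add {ψ : Tuple K → ℝ} (h : RealFactor ψ) : RealAdd (fun v => Real.log (ψ v)) := by
  obtain ⟨⟨m, M, hm, hM⟩, h2, h3, h4⟩ := h
  refine ⟨⟨|Real.log m| + |Real.log M|, fun v hv => log_bound hm (hM v hv).1 (hM v hv).2⟩,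
    h2.log fun v hv => (lt_of_lt_of_le hm (hM v hv).1).ne', ?_, ?_⟩
  · intro v hv a ha hc
    simp only [h3 v hv a ha hc]
  · intro v hv a b c d hd
    simp only [h4 v hv a b c d hd]

lemma RealAdd.lin {G G' : Tuple K → ℝ} (h : RealAdd G) (h' : RealAdd G') (t : ℝ) :
    RealAdd (fun v => t * G v + G' v) := by
  obtain ⟨⟨M, hM⟩, h2, h3, h4⟩ := h
  obtain ⟨⟨M', hM'⟩, h2', h3', h4'⟩ := h'
  refine ⟨⟨|t| * M + M', fun v hv => ?_⟩, (h2.const_mul t).add h2', ?_, ?_⟩
  · refine (abs_add_le _ _).trans (add_le_add ?_ (hM' v hv))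
    rw [abs_mul]
    exact mul_le_mul_of_nonneg_left (hM v hv) (abs_nonneg _)
  · intro v hv a ha hc
    simp only [h3 v hv a ha hc, h3' v hv a ha hc]
  · intro v hv a b c d hd
    simp only [h4 v hv a b c d hd, h4' v hv a b c d hd]

lemma exp_lip {x y M : ℝ} (hx : |x| ≤ M) (hy : |y| ≤ M) :
    |Real.exp x - Real.exp y| ≤ Real.exp M * |x - y| := by
  have key : ∀ a b : ℝ, a ≤ M → Real.exp a - Real.exp b ≤ Real.exp M * |a - b| := by
    intro a b ha
    rcases le_total b a with hab | hab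
    · have h1 := Real.add_one_le_exp (b - a)
      have h2 : Real.exp b = Real.exp a * Real.exp (b - a) := by rw [← Real.exp_add]; ring_nf
      have h3 : Real.exp a - Real.exp b ≤ Real.exp a * (a - b) := by
        rw [h2]
        have := Real.exp_pos a
        nlinarith
      rw [abs_of_nonneg (by linarith)]
      exact h3.trans (mul_le_mul_of_nonneg_right (Real.exp_le_exp.2 ha) (by linarith))
    · have h1 := Real.exp_le_exp.2 hab
      have := mul_nonneg (Real.exp_pos M).le (abs_nonneg (a - b))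
      linarith
  rw [abs_le]
  constructor
  · have := key y x ((le_abs_self _).trans hy)
    rw [abs_sub_comm] at this
    linarith
  · exact key x y ((le_abs_self _).trans hx)

lemma PadicAdd.exp {p : ℕ} {γ : Alg K × Alg K → ℝ} (h : PadicAdd p γ) :
    PadicFactor p (fun P => Real.exp (γ P)) := by
  obtain ⟨⟨M, hM⟩, h2, h3⟩ := h
  refine ⟨⟨Real.exp (-M), Real.exp M, Real.exp_pos _, fun P hP => ?_⟩, ?_, ?_⟩
  · obtain ⟨h5, h6⟩ := abs_le.1 (hM P hP)
    exact ⟨Real.exp_le_exp.2 h5, Real.exp_le_exp.2 h6⟩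
  · intro P P' hP he
    simp only [h2 P P' hP he]
  · intro ε hε
    obtain ⟨k, hk⟩ := h3 (ε / Real.exp M) (by positivity)
    refine ⟨k, fun P P' hP hP' hr h5 h6 => ?_⟩
    have h7 := hk P P' hP hP' hr h5 h6
    refine (exp_lip (hM P' hP') (hM P hP)).trans ?_
    calc Real.exp M * |γ P' - γ P| ≤ Real.exp M * (ε / Real.exp M) :=
          mul_le_mul_of_nonneg_left h7 (Real.exp_pos _).le
      _ = ε := by field_simp

lemma log_lip {m x y : ℝ} (hm : 0 < m) (hx : m ≤ x) (hy : m ≤ y) :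
    |Real.log x - Real.log y| ≤ |x - y| / m := by
  have key : ∀ a b : ℝ, m ≤ a → m ≤ b → Real.log a - Real.log b ≤ |a - b| / m := by
    intro a b ha hb
    have hb0 : 0 < b := by linarith
    have ha0 : 0 < a := by linarith
    rw [← Real.log_div ha0.ne' hb0.ne']
    have h1 := Real.log_le_sub_one_of_pos (div_pos ha0 hb0)
    have h2 : a / b - 1 = (a - b) / b := by field_simp
    rw [h2] at h1
    refine h1.trans ?_
    calc (a - b) / b ≤ |a - b| / b := div_le_div_of_nonneg_right (le_abs_self _) hb0.le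
      _ ≤ |a - b| / m := div_le_div_of_nonneg_left (abs_nonneg _) hm hb
  rw [abs_le]
  constructor
  · have := key y x hy hx
    rw [abs_sub_comm] at this
    linarith
  · exact key x y hx hy

lemma log_padic {p : ℕ} {φ : Alg K × Alg K → ℝ} (h : PadicFactor p φ) :
    PadicAdd p (fun P => Real.log (φ P)) := by
  obtain ⟨⟨m, M, hm, hM⟩, h2, h3⟩ := h
  refine ⟨⟨|Real.log m| + |Real.log M|, fun P hP => log_bound hm (hM P hP).1 (hM P hP).2⟩, ?_, ?_⟩
  · intro P P' hP he
    simp only [h2 P P' hP he]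
  · intro ε hε
    obtain ⟨k, hk⟩ := h3 (ε * m) (by positivity)
    refine ⟨k, fun P P' hP hP' hr h5 h6 => ?_⟩
    refine (log_lip hm (hM P' hP').1 (hM P hP).1).trans ?_
    rw [div_le_iff₀ hm]
    exact hk P P' hP hP' hr h5 h6

lemma sp_pow_le {p k j : ℕ} (i : s) (c : FractionalIdeal (𝓞 (K i))⁰ (K i)) :
    spanSingleton (𝓞 (K i))⁰ (p : K i) ^ (k + j) * c ≤ spanSingleton (𝓞 (K i))⁰ (p : K i) ^ k * c := by
  have h1 : spanSingleton (𝓞 (K i))⁰ (p : K i) ≤ 1 := by
    rw [spanSingleton_le_iff_mem, mem_one_iff]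
    exact ⟨(p : 𝓞 (K i)), by simp⟩
  induction j with
  | zero => simp
  | succ j ih =>
    refine le_trans ?_ ih
    rw [← add_assoc, pow_succ', mul_assoc]
    calc spanSingleton (𝓞 (K i))⁰ (p : K i) * (spanSingleton (𝓞 (K i))⁰ (p : K i) ^ (k + j) * c)
        ≤ 1 * (spanSingleton (𝓞 (K i))⁰ (p : K i) ^ (k + j) * c) := by gcongr
      _ = _ := one_mul _

lemma PadicAdd.lin {p : ℕ} {γ γ' : Alg K × Alg K → ℝ} (h : PadicAdd p γ) (h' : PadicAdd p γ')
    (t : ℝ) : PadicAdd p (fun P => t * γ P + γ' P) := by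
  obtain ⟨⟨M, hM⟩, h2, h3⟩ := h
  obtain ⟨⟨M', hM'⟩, h2', h3'⟩ := h'
  refine ⟨⟨|t| * M + M', fun P hP => ?_⟩, ?_, ?_⟩
  · refine (abs_add_le _ _).trans (add_le_add ?_ (hM' P hP))
    rw [abs_mul]
    exact mul_le_mul_of_nonneg_left (hM P hP) (abs_nonneg _)
  · intro P P' hP he
    simp only [h2 P P' hP he, h2' P P' hP he]
  · intro ε hε
    obtain ⟨k, hk⟩ := h3 (ε / (2 * (|t| + 1))) (by positivity)
    obtain ⟨k', hk'⟩ := h3' (ε / 2) (by positivity)
    refine ⟨k + k', fun P P' hP hP' hr h5 h6 => ?_⟩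
    have h7 := hk P P' hP hP' hr (fun i => sp_pow_le i _ (h5 i)) (fun i => sp_pow_le i _ (h6 i))
    have h8 := hk' P P' hP hP' hr (fun i => sp_pow_le i _ (by rw [add_comm]; exact h5 i))
      (fun i => sp_pow_le i _ (by rw [add_comm]; exact h6 i))
    have e : t * γ P' + γ' P' - (t * γ P + γ' P) = t * (γ P' - γ P) + (γ' P' - γ' P) := by ring
    rw [e]
    refine (abs_add_le _ _).trans ?_
    rw [abs_mul]
    have h9 : |t| * |γ P' - γ P| ≤ ε / 2 := by
      calc |t| * |γ P' - γ P| ≤ (|t| + 1) * (ε / (2 * (|t| + 1))) :=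
            mul_le_mul (by linarith) h7 (abs_nonneg _) (by positivity)
        _ = ε / 2 := by field_simp
    linarith

lemma padic_zero (p : ℕ) : PadicAdd (K := K) p (fun _ => 0) :=
  ⟨⟨0, fun _ _ => by simp⟩, fun _ _ _ _ => rfl, fun ε hε => ⟨0, fun _ _ _ _ _ _ _ => by
    simpa using hε.le⟩⟩

lemma real_const (c : ℝ) : RealAdd (K := K) (fun _ => c) :=
  ⟨⟨|c|, fun _ _ => le_rfl⟩, continuousOn_const, fun _ _ _ _ _ => rfl, fun _ _ _ _ _ _ _ => rfl⟩

/-! ### pairs and classes -/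

lemma eq_refl (P : Alg K × Alg K) : Equivalent P P := Pool.Agent.Y977.KE.E.refl P

lemma desc_all : Pool.Agent.Y714.KE.S_DESC K :=
  Pool.Agent.Y681.KE.desc (Pool.Agent.Y681.KE.hb (Pool.Agent.Y421.KE.cls K) Pool.Agent.Y259.KE.idx)
    Pool.Agent.Y195.KE.nbr

lemma ht_inv (hodd : Odd (deg K)) (hn : 5 ≤ deg K) {P P' : Alg K × Alg K} (hP : Distinct P)
    (h : Equivalent P P') : Distinct P' ∧ ht P' = ht P := by
  have h1 := (Pool.Agent.Y977.KE.ht K desc_all Pool.Agent.Y195.KE.uni hodd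
    (show 3 ≤ deg K by omega)).2 P P' hP h
  rw [AllForms.ht_eq, AllForms.ht_eq]
  exact h1

lemma ht_pos (hodd : Odd (deg K)) (hn : 5 ≤ deg K) {P : Alg K × Alg K} (hP : Distinct P) :
    0 < ht P := by
  have hn2 : 2 ≤ Pool.Agent.Y714.KE.dg K := show 2 ≤ deg K by omega
  have hn3 : 3 ≤ Pool.Agent.Y714.KE.dg K := show 3 ≤ deg K by omega
  obtain ⟨Q, hQ, ⟨a, b, c, d, hd, he⟩, -⟩ := desc_all (K := K) hodd hn3 P hP
  have hE : Pool.Agent.Y714.KE.Eq2 P Q := by
    rw [he]
    exact Pool.Agent.Y977.KE.E.gl _ hd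
  have hQN := Pool.Agent.Y977.KE.E.nd hE hP
  rw [AllForms.ht_eq, Pool.Agent.Y977.KE.ht_eq desc_all Pool.Agent.Y195.KE.uni hodd hn3 hP hQ hE]
  unfold Pool.Agent.Y714.KE.hp
  have g1 : (0 : ℝ) < ((Pool.Agent.Y714.KE.nA (Pool.Agent.Y714.KE.cn Q) : ℚ) : ℝ) := by
    exact_mod_cast Pool.Agent.Y714.KE.nA_pos
      (Pool.Agent.Y714.KE.cn_ne fun i => Pool.Agent.Y714.KE.ND.ne hQN hn2 i)
  have g2 := Pool.Agent.Y714.KE.ND.pm_pos hQN hn2
  positivity

lemma stable (hn : 5 ≤ deg K) {P : Alg K × Alg K} (hP : Distinct P) :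
    RealStable (conjugates P) := by
  rw [AllForms.realStable_iff]
  exact ⟨Pool.Agent.Y714.KE.SYM_vc P,
    Pool.Agent.Y714.KE.ND.pm_pos hP (show 2 ≤ deg K by omega)⟩

lemma Factor.inv (hn : 5 ≤ deg K) {m : Alg K × Alg K → ℝ} (hm : Factor m) {P P' : Alg K × Alg K}
    (hP : Distinct P) (h : Equivalent P P') : m P' = m P := by
  obtain ⟨S, ψ, φ, hS, hψ, hφ, he⟩ := hm
  have hP' : Distinct P' := Pool.Agent.Y977.KE.E.nd h hP
  rw [he P hP, he P' hP']
  exact Pool.Agent.Y714.KE.fac_eq2 (show 2 ≤ deg K by omega) ((AllForms.realFactor_iff ψ).1 hψ)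
    (fun p hp => hφ p hp) hP h

lemma Factor.pos (hn : 5 ≤ deg K) {m : Alg K × Alg K → ℝ} (hm : Factor m) {P : Alg K × Alg K}
    (hP : Distinct P) : 0 < m P := by
  obtain ⟨S, ψ, φ, hS, hψ, hφ, he⟩ := hm
  rw [he P hP]
  obtain ⟨⟨a, b, ha, hab⟩, -⟩ := hψ
  refine mul_pos (lt_of_lt_of_le ha (hab _ (stable hn hP)).1) (Finset.prod_pos fun p hp => ?_)
  obtain ⟨⟨a, b, ha, hab⟩, -⟩ := hφ p hp
  exact lt_of_lt_of_le ha (hab _ hP).1

/-- sums of additive factors -/
def IsAdd (f : Alg K × Alg K → ℝ) : Prop :=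
  ∃ (S : Finset ℕ) (G : Tuple K → ℝ) (γ : ℕ → Alg K × Alg K → ℝ), (∀ p ∈ S, p.Prime) ∧
    RealAdd G ∧ (∀ p, PadicAdd p (γ p)) ∧ (∀ p, p ∉ S → γ p = fun _ => 0) ∧
    ∀ P, Distinct P → f P = G (conjugates P) + ∑ p ∈ S, γ p P

lemma isAdd_const (c : ℝ) : IsAdd (K := K) (fun _ => c) :=
  ⟨∅, fun _ => c, fun _ _ => 0, by simp, real_const c, fun p => padic_zero p, fun _ _ => rfl,
    fun _ _ => by simp⟩

lemma IsAdd.lin {f f' : Alg K × Alg K → ℝ} (h : IsAdd f) (h' : IsAdd f') (t : ℝ) :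
    IsAdd (fun P => t * f P + f' P) := by
  obtain ⟨S, G, γ, hS, hG, hγ, h0, hf⟩ := h
  obtain ⟨S', G', γ', hS', hG', hγ', h0', hf'⟩ := h'
  refine ⟨S ∪ S', fun v => t * G v + G' v, fun p P => t * γ p P + γ' p P, ?_, hG.lin hG' t,
    fun p => (hγ p).lin (hγ' p) t, ?_, ?_⟩
  · intro p hp
    rcases Finset.mem_union.1 hp with h | h
    exacts [hS p h, hS' p h]
  · intro p hp
    rw [Finset.mem_union, not_or] at hp
    funext P
    simp [h0 p hp.1, h0' p hp.2]
  · intro P hP
    have e1 : ∑ p ∈ S, γ p P = ∑ p ∈ S ∪ S', γ p P :=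
      Finset.sum_subset Finset.subset_union_left (fun p _ hp => by rw [h0 p hp])
    have e2 : ∑ p ∈ S', γ' p P = ∑ p ∈ S ∪ S', γ' p P :=
      Finset.sum_subset Finset.subset_union_right (fun p _ hp => by rw [h0' p hp])
    show t * f P + f' P = t * G (conjugates P) + G' (conjugates P) +
      ∑ p ∈ S ∪ S', (t * γ p P + γ' p P)
    rw [hf P hP, hf' P hP, e1, e2, Finset.sum_add_distrib, ← Finset.mul_sum]
    ring

lemma IsAdd.exp {f : Alg K × Alg K → ℝ} (h : IsAdd f) : Factor (fun P => Real.exp (f P)) := by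
  obtain ⟨S, G, γ, hS, hG, hγ, h0, hf⟩ := h
  exact ⟨S, _, fun p P => Real.exp (γ p P), hS, hG.exp, fun p _ => (hγ p).exp, fun P hP => by
    simp only [hf P hP, Real.exp_add, Real.exp_sum]⟩

lemma Factor.log (hn : 5 ≤ deg K) {m : Alg K × Alg K → ℝ} (hm : Factor m) :
    IsAdd (fun P => Real.log (m P)) := by
  obtain ⟨S, ψ, φ, hS, hψ, hφ, he⟩ := hm
  refine ⟨S, fun v => Real.log (ψ v), fun p => if p ∈ S then fun P => Real.log (φ p P) else
    fun _ => 0, hS, log_add hψ, ?_, ?_, ?_⟩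
  · intro p
    by_cases hp : p ∈ S
    · simp only [if_pos hp]
      exact log_padic (hφ p hp)
    · simp only [if_neg hp]
      exact padic_zero p
  · intro p hp
    simp [hp]
  · intro P hP
    have h1 : ψ (conjugates P) ≠ 0 := by
      obtain ⟨⟨a, b, ha, hab⟩, -⟩ := hψ
      exact (lt_of_lt_of_le ha (hab _ (stable hn hP)).1).ne'
    have h2 : ∀ p ∈ S, φ p P ≠ 0 := by
      intro p hp
      obtain ⟨⟨a, b, ha, hab⟩, -⟩ := hφ p hp
      exact (lt_of_lt_of_le ha (hab _ hP).1).ne'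
    simp only [he P hP]
    rw [Real.log_mul h1 (Finset.prod_ne_zero_iff.2 h2), Real.log_prod h2]
    congr 1
    apply Finset.sum_congr rfl
    intro p hp
    rw [if_pos hp]

lemma IsAdd.bdd (hn : 5 ≤ deg K) {f : Alg K × Alg K → ℝ} (h : IsAdd f) :
    ∃ M : ℝ, ∀ P, Distinct P → |f P| ≤ M := by
  obtain ⟨S, G, γ, hS, hG, hγ, h0, hf⟩ := h
  obtain ⟨M, hM⟩ := hG.1
  choose M' hM' using fun p => (hγ p).1
  refine ⟨M + ∑ p ∈ S, M' p, fun P hP => ?_⟩
  rw [hf P hP]
  refine (abs_add_le _ _).trans (add_le_add (hM _ (stable hn hP)) ?_)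
  exact (Finset.abs_sum_le_sum_abs _ _).trans (Finset.sum_le_sum fun p _ => hM' p P hP)

lemma factor_one : Factor (K := K) (fun _ => 1) := by
  have := (isAdd_const (K := K) 0).exp
  simpa using this

lemma IsAdd.exp_neg {f : Alg K × Alg K → ℝ} (h : IsAdd f) : Factor (fun P => Real.exp (-f P)) := by
  have := (h.lin (isAdd_const 0) (-1)).exp
  simpa using this

lemma Factor.reci (hn : 5 ≤ deg K) {m : Alg K × Alg K → ℝ} (hm : Factor m) :
    Factor (fun P => 1 / m P) := by
  obtain ⟨S, ψ, φ, hS, hψ, hφ, he⟩ := (hm.log hn).exp_neg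
  refine ⟨S, ψ, φ, hS, hψ, hφ, fun P hP => ?_⟩
  rw [← he P hP]
  show 1 / m P = Real.exp (-Real.log (m P))
  rw [Real.exp_neg, Real.exp_log (hm.pos hn hP), one_div]

/-! ### the points -/

variable (K) in
/-- the points -/
def Pt : Type := {C : Set (Alg K × Alg K) // ∃ P, Distinct P ∧ C = {P' | Equivalent P P'}}

/-- a pair in the class -/
noncomputable def rep (x : Pt K) : Alg K × Alg K := x.2.choose

lemma rep_distinct (x : Pt K) : Distinct (rep x) := x.2.choose_spec.1

lemma rep_eq (x : Pt K) : x.1 = {P' | Equivalent (rep x) P'} := x.2.choose_spec.2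

/-- the logarithmic height -/
noncomputable def hL (x : Pt K) : ℝ := Real.log (ht (rep x))

variable (K) in
/-- the additive factors as functions on the points -/
def addF : Submodule ℝ (Pt K → ℝ) where
  carrier := {f | ∃ g, IsAdd g ∧ ∀ x, f x = g (rep x)}
  zero_mem' := ⟨fun _ => 0, isAdd_const 0, fun _ => rfl⟩
  add_mem' := by
    rintro f f' ⟨g, hg, h⟩ ⟨g', hg', h'⟩
    exact ⟨_, hg.lin hg' 1, fun x => by simp [h, h']⟩
  smul_mem' := by
    rintro c f ⟨g, hg, h⟩
    exact ⟨_, hg.lin (isAdd_const 0) c, fun x => by simp [h]⟩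

lemma cond_iff {a b B : ℝ} (ha : 0 < a) (hb : 0 < b) (hB : 0 < B) :
    a * b ≤ B ↔ Real.log a ≤ Real.log B + -Real.log b := by
  rw [← Real.log_le_log_iff (mul_pos ha hb) hB, Real.log_mul ha.ne' hb.ne']
  constructor <;> intro h <;> linarith

lemma below_eq (hodd : Odd (deg K)) (hn : 5 ≤ deg K) {m : Alg K × Alg K → ℝ}
    (hm : ∀ P P', Distinct P → Equivalent P P' → m P' = m P) (hm0 : ∀ P, Distinct P → 0 < m P)
    {B : ℝ} (hB : 0 < B) :
    below m B = Subtype.val '' {x : Pt K | hL x ≤ Real.log B + -Real.log (m (rep x))} := by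
  ext C
  constructor
  · rintro ⟨P, hP, rfl, hle⟩
    refine ⟨⟨_, P, hP, rfl⟩, ?_, rfl⟩
    set x : Pt K := ⟨_, P, hP, rfl⟩ with hx
    have hE : Equivalent (rep x) P := by
      have h1 : P ∈ x.1 := eq_refl P
      rw [rep_eq x] at h1
      exact h1
    have h1 := ht_inv hodd hn (rep_distinct x) hE
    have h2 := hm _ _ (rep_distinct x) hE
    rw [h1.2, h2] at hle
    exact (cond_iff (ht_pos hodd hn (rep_distinct x)) (hm0 _ (rep_distinct x)) hB).1 hle
  · rintro ⟨x, hx, rfl⟩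
    exact ⟨rep x, rep_distinct x, rep_eq x,
      (cond_iff (ht_pos hodd hn (rep_distinct x)) (hm0 _ (rep_distinct x)) hB).2 hx⟩

lemma value_eq {w : Alg K × Alg K → ℝ} (hw : ∀ P P', Distinct P → Equivalent P P' → w P' = w P)
    (x : Pt K) : value w x.1 = w (rep x) := by
  unfold value
  have h1 : w '' x.1 = {w (rep x)} := by
    ext y
    simp only [Set.mem_image, Set.mem_singleton_iff]
    constructor
    · rintro ⟨P', hP', rfl⟩
      rw [rep_eq x] at hP'
      exact hw _ _ (rep_distinct x) hP'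
    · rintro rfl
      exact ⟨rep x, by rw [rep_eq x]; exact eq_refl _, rfl⟩
  rw [h1, csSup_singleton]

lemma sum_below (hodd : Odd (deg K)) (hn : 5 ≤ deg K) {m w : Alg K × Alg K → ℝ}
    (hm : ∀ P P', Distinct P → Equivalent P P' → m P' = m P) (hm0 : ∀ P, Distinct P → 0 < m P)
    (hw : ∀ P P', Distinct P → Equivalent P P' → w P' = w P) {B : ℝ} (hB : 0 < B) :
    ∑ᶠ C ∈ below m B, value w C =
      cnt hL (fun x => w (rep x)) (fun x => -Real.log (m (rep x))) (Real.log B) := by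
  rw [below_eq hodd hn hm hm0 hB, finsum_mem_image Subtype.val_injective.injOn, ← cnt_set]
  exact finsum_mem_congr rfl fun x _ => value_eq hw x

lemma card_below (hodd : Odd (deg K)) (hn : 5 ≤ deg K) {m : Alg K × Alg K → ℝ}
    (hm : ∀ P P', Distinct P → Equivalent P P' → m P' = m P) (hm0 : ∀ P, Distinct P → 0 < m P)
    {B : ℝ} (hB : 0 < B) :
    (below m B).ncard = {x : Pt K | hL x ≤ Real.log B + -Real.log (m (rep x))}.ncard := by
  rw [below_eq hodd hn hm hm0 hB, Set.ncard_image_of_injective _ Subtype.val_injective]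
  rfl

lemma asym (hodd : Odd (deg K)) (hn : 5 ≤ deg K) {m : Alg K × Alg K → ℝ} (hm : Factor m) :
    ∃ c : ℝ, 0 < c ∧ Tendsto (fun u : ℝ =>
      ({x : Pt K | hL x ≤ u + -Real.log (m (rep x))}.ncard : ℝ) / nu (Fintype.card s - 1) u)
      atTop (𝓝 c) := by
  obtain ⟨S, ψ, φ, hS, hψ, hφ, he⟩ := id hm
  obtain ⟨c, hc, h⟩ := AllForms.result K hodd hn S hS ψ hψ φ hφ
  refine ⟨c, hc, ?_⟩
  refine (h.comp Real.tendsto_exp_atTop).congr fun u => ?_
  have h1 : {C : Set (Alg K × Alg K) | ∃ P, Distinct P ∧ C = {P' | Equivalent P P'} ∧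
      ht P * (ψ (conjugates P) * ∏ p ∈ S, φ p P) ≤ Real.exp u} = below m (Real.exp u) := by
    ext C
    constructor
    · rintro ⟨P, hP, h1, h2⟩
      exact ⟨P, hP, h1, by rw [he P hP]; exact h2⟩
    · rintro ⟨P, hP, h1, h2⟩
      exact ⟨P, hP, h1, by rw [← he P hP]; exact h2⟩
  simp only [Function.comp, Real.log_exp, nu]
  rw [h1, card_below hodd hn (fun P P' hP h => hm.inv hn hP h) (fun P hP => hm.pos hn hP)
    (Real.exp_pos u), Real.log_exp]

lemma fin_all (hodd : Odd (deg K)) (hn : 5 ≤ deg K) : Fin' (hL (K := K)) := by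
  intro u
  obtain ⟨c, hc, h⟩ := asym hodd hn (factor_one (K := K))
  have h1 := h.eventually (lt_mem_nhds hc)
  obtain ⟨v, hv, huv⟩ := (h1.and (eventually_ge_atTop u)).exists
  have h2 : {x : Pt K | hL x ≤ v + -Real.log 1}.ncard ≠ 0 := by
    intro h0
    rw [h0] at hv
    simp at hv
  refine (Set.finite_of_ncard_ne_zero h2).subset ?_
  intro x hx
  have hx' : hL x ≤ u := hx
  show hL x ≤ v + -Real.log 1
  rw [Real.log_one]
  linarith

lemma hyp (hodd : Odd (deg K)) (hn : 5 ≤ deg K) :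
    Hyp (hL (K := K)) (addF K) (Fintype.card s - 1) where
  fin := fin_all hodd hn
  const := ⟨fun _ => 1, isAdd_const 1, fun _ => rfl⟩
  bdd := by
    rintro f ⟨g, hg, h⟩
    obtain ⟨M, hM⟩ := hg.bdd hn
    exact ⟨M, fun x => by rw [h]; exact hM _ (rep_distinct x)⟩
  lim := by
    rintro f ⟨g, hg, h⟩
    obtain ⟨M, hM⟩ := hg.bdd hn
    obtain ⟨c, hc, hl⟩ := asym hodd hn hg.exp_neg
    refine ⟨c, hl.congr fun u => ?_⟩
    rw [← cnt_ncard (fin_all hodd hn) (M := M) (fun x => by rw [h]; exact hM _ (rep_distinct x))]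
    simp only [Real.log_exp, neg_neg, h]

/-! ### test functions -/

/-- elementary test functions -/
def Elem (w : Alg K × Alg K → ℝ) : Prop :=
  ∃ (k : ℕ) (g : Fin k → Alg K × Alg K → ℝ) (Φ : (Fin k → ℝ) → ℝ), (∀ i, Factor (g i)) ∧
    ContinuousOn Φ {y | ∀ i, 0 < y i} ∧ ∀ P, Distinct P → w P = Φ (fun i => g i P)

lemma test_iff {w : Alg K × Alg K → ℝ} :
    Test w ↔ ∀ ε : ℝ, 0 < ε → ∃ w', Elem w' ∧ ∀ P, Distinct P → |w P - w' P| ≤ ε := by
  constructor
  · intro h ε hε
    obtain ⟨k, g, Φ, hg, hΦ, hw⟩ := h ε hε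
    exact ⟨_, ⟨k, g, Φ, hg, hΦ, fun _ _ => rfl⟩, hw⟩
  · intro h ε hε
    obtain ⟨w', ⟨k, g, Φ, hg, hΦ, hw'⟩, hw⟩ := h ε hε
    exact ⟨k, g, Φ, hg, hΦ, fun P hP => by rw [← hw' P hP]; exact hw P hP⟩

lemma nd_of {P P' : Alg K × Alg K} (hP : Distinct P) (h : Equivalent P P') : Distinct P' :=
  Pool.Agent.Y977.KE.E.nd h hP

lemma Elem.inv (hn : 5 ≤ deg K) {w : Alg K × Alg K → ℝ} (hw : Elem w) {P P' : Alg K × Alg K}
    (hP : Distinct P) (h : Equivalent P P') : w P' = w P := by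
  obtain ⟨k, g, Φ, hg, hΦ, hw⟩ := hw
  rw [hw P hP, hw P' (nd_of hP h)]
  congr 1
  funext i
  exact (hg i).inv hn hP h

lemma Test.inv (hn : 5 ≤ deg K) {w : Alg K × Alg K → ℝ} (hw : Test w) {P P' : Alg K × Alg K}
    (hP : Distinct P) (h : Equivalent P P') : w P' = w P := by
  by_contra hne
  have h0 : 0 < |w P' - w P| := abs_pos.2 (sub_ne_zero.2 hne)
  obtain ⟨w', hw', h1⟩ := test_iff.1 hw (|w P' - w P| / 3) (by positivity)
  have h2 := h1 P hP
  have h3 := h1 P' (nd_of hP h)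
  rw [hw'.inv hn hP h] at h3
  have h4 : |w P' - w P| ≤ |w P' - w' P| + |w P - w' P| := by
    rw [abs_sub_comm (w P)]
    exact abs_sub_le _ _ _
  linarith

lemma Elem.map2 {w w' : Alg K × Alg K → ℝ} (hw : Elem w) (hw' : Elem w') {Ψ : ℝ → ℝ → ℝ}
    (hΨ : Continuous (fun y : ℝ × ℝ => Ψ y.1 y.2)) : Elem (fun P => Ψ (w P) (w' P)) := by
  obtain ⟨k, g, Φ, hg, hΦ, hw⟩ := hw
  obtain ⟨k', g', Φ', hg', hΦ', hw'⟩ := hw'
  refine ⟨k + k', Fin.append g g', fun y => Ψ (Φ fun i => y (Fin.castAdd k' i))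
    (Φ' fun j => y (Fin.natAdd k j)), ?_, ?_, ?_⟩
  · intro i
    refine Fin.addCases (fun i => ?_) (fun j => ?_) i
    · rw [Fin.append_left]; exact hg i
    · rw [Fin.append_right]; exact hg' j
  · have c1 : ContinuousOn (fun y : Fin (k + k') → ℝ => Φ fun i => y (Fin.castAdd k' i))
        {y | ∀ i, 0 < y i} := hΦ.comp (by fun_prop) (fun y hy i => hy _)
    have c2 : ContinuousOn (fun y : Fin (k + k') → ℝ => Φ' fun i => y (Fin.natAdd k i))
        {y | ∀ i, 0 < y i} := hΦ'.comp (by fun_prop) (fun y hy i => hy _)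
    exact hΨ.comp_continuousOn (c1.prodMk c2)
  · intro P hP
    simp only [hw P hP, hw' P hP, Fin.append_left, Fin.append_right]

lemma Elem.good (hodd : Odd (deg K)) (hn : 5 ≤ deg K) {w : Alg K × Alg K → ℝ} (hw : Elem w) :
    Good (hL (K := K)) (addF K) (Fintype.card s - 1) (fun x => w (rep x)) := by
  obtain ⟨k, g, Φ, hg, hΦ, hw⟩ := hw
  have hc : Continuous (fun y : Fin k → ℝ => Φ (fun i => Real.exp (y i))) :=
    hΦ.comp_continuous (by fun_prop) (fun y i => Real.exp_pos _)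
  have h1 := good_cont (hyp hodd hn) (g := fun i x => Real.log (g i (rep x)))
    (fun i => ⟨_, (hg i).log hn, fun _ => rfl⟩) hc
  have h2 : (fun x : Pt K => w (rep x)) =
      fun x => Φ (fun i => Real.exp (Real.log (g i (rep x)))) := by
    funext x
    rw [hw _ (rep_distinct x)]
    congr 1
    funext i
    exact (Real.exp_log ((hg i).pos hn (rep_distinct x))).symm
  rw [h2]
  exact h1

lemma Test.good (hodd : Odd (deg K)) (hn : 5 ≤ deg K) {w : Alg K × Alg K → ℝ} (hw : Test w) :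
    Good (hL (K := K)) (addF K) (Fintype.card s - 1) (fun x => w (rep x)) := by
  have h1 := test_iff.1 hw
  refine Good.unif (hyp hodd hn) ?_ ?_
  · obtain ⟨w', hw', h2⟩ := h1 1 one_pos
    obtain ⟨W, hW⟩ := (hw'.good hodd hn).1
    refine ⟨1 + W, fun x => ?_⟩
    have e : w (rep x) = (w (rep x) - w' (rep x)) + w' (rep x) := by ring
    rw [e]
    exact (abs_add_le _ _).trans (add_le_add (h2 _ (rep_distinct x)) (hW x))
  · intro ε hε
    obtain ⟨w', hw', h2⟩ := h1 ε hε
    exact ⟨_, hw'.good hodd hn, fun x => h2 _ (rep_distinct x)⟩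

lemma exists_rep {P : Alg K × Alg K} (hP : Distinct P) :
    ∃ x : Pt K, x.1 = {P' | Equivalent P P'} ∧ Equivalent (rep x) P := by
  let x : Pt K := ⟨_, P, hP, rfl⟩
  have h1 : P ∈ x.1 := eq_refl P
  have h2 : x.1 = {P' | Equivalent (rep x) P'} := rep_eq x
  rw [h2] at h1
  exact ⟨x, rfl, h1⟩

lemma Test.bdd (hodd : Odd (deg K)) (hn : 5 ≤ deg K) {w : Alg K × Alg K → ℝ} (hw : Test w) :
    ∃ W : ℝ, 0 < W ∧ ∀ P, Distinct P → |w P| ≤ W := by
  obtain ⟨W, hW⟩ := (hw.good hodd hn).1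
  refine ⟨|W| + 1, by positivity, fun P hP => ?_⟩
  obtain ⟨x, -, hE⟩ := exists_rep hP
  rw [hw.inv hn (rep_distinct x) hE]
  have h1 := hW x
  have h2 := le_abs_self W
  linarith

lemma Test.mul (hodd : Odd (deg K)) (hn : 5 ≤ deg K) {w w' : Alg K × Alg K → ℝ} (hw : Test w)
    (hw' : Test w') : Test (fun P => w P * w' P) := by
  obtain ⟨W, hW0, hW⟩ := hw.bdd hodd hn
  obtain ⟨W', hW0', hW'⟩ := hw'.bdd hodd hn
  rw [test_iff]
  intro ε hε
  set δ : ℝ := min 1 (ε / (W + W' + 1)) with hδ'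
  have hδ : 0 < δ := lt_min one_pos (by positivity)
  obtain ⟨u, hu, h1⟩ := test_iff.1 hw δ hδ
  obtain ⟨u', hu', h2⟩ := test_iff.1 hw' δ hδ
  refine ⟨_, hu.map2 hu' (Ψ := fun a b => a * b) (by fun_prop), fun P hP => ?_⟩
  have e : w P * w' P - u P * u' P = w P * (w' P - u' P) + (w P - u P) * u' P := by ring
  have h3 : |u' P| ≤ W' + 1 := by
    have h4 : u' P = w' P - (w' P - u' P) := by ring
    rw [h4]
    exact (abs_sub _ _).trans (add_le_add (hW' P hP) ((h2 P hP).trans (min_le_left _ _)))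
  show |w P * w' P - u P * u' P| ≤ ε
  rw [e]
  refine (abs_add_le _ _).trans ?_
  rw [abs_mul, abs_mul]
  calc |w P| * |w' P - u' P| + |w P - u P| * |u' P| ≤ W * δ + δ * (W' + 1) :=
        add_le_add (mul_le_mul (hW P hP) (h2 P hP) (abs_nonneg _) hW0.le)
          (mul_le_mul (h1 P hP) h3 (abs_nonneg _) hδ.le)
    _ = (W + W' + 1) * δ := by ring
    _ ≤ (W + W' + 1) * (ε / (W + W' + 1)) :=
        mul_le_mul_of_nonneg_left (min_le_right _ _) (by positivity)
    _ = ε := by field_simp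

lemma Test.lin {w w' : Alg K × Alg K → ℝ} (hw : Test w) (hw' : Test w') (a : ℝ) :
    Test (fun P => a * w P + w' P) := by
  rw [test_iff]
  intro ε hε
  obtain ⟨u, hu, h1⟩ := test_iff.1 hw (ε / (2 * (|a| + 1))) (by positivity)
  obtain ⟨u', hu', h2⟩ := test_iff.1 hw' (ε / 2) (by positivity)
  refine ⟨_, hu.map2 hu' (Ψ := fun x y => a * x + y) (by fun_prop), fun P hP => ?_⟩
  have e : a * w P + w' P - (a * u P + u' P) = a * (w P - u P) + (w' P - u' P) := by ring
  show |a * w P + w' P - (a * u P + u' P)| ≤ ε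
  rw [e]
  refine (abs_add_le _ _).trans ?_
  rw [abs_mul]
  have h3 : |a| * |w P - u P| ≤ ε / 2 := by
    calc |a| * |w P - u P| ≤ (|a| + 1) * (ε / (2 * (|a| + 1))) :=
          mul_le_mul (by linarith) (h1 P hP) (abs_nonneg _) (by positivity)
      _ = ε / 2 := by field_simp
  have := h2 P hP
  linarith

lemma Factor.test {m : Alg K × Alg K → ℝ} (hm : Factor m) : Test m :=
  test_iff.2 fun ε hε => ⟨m, ⟨1, fun _ => m, fun y => y 0, fun _ => hm,
    (continuous_apply 0).continuousOn, fun _ _ => rfl⟩, fun P _ => by simpa using hε.le⟩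

lemma test_const (c : ℝ) : Test (K := K) (fun _ => c) :=
  test_iff.2 fun ε hε => ⟨fun _ => c, ⟨0, Fin.elim0, fun _ => c, fun i => i.elim0,
    continuousOn_const, fun _ _ => rfl⟩, fun P _ => by simpa using hε.le⟩

lemma Test.congr {w w' : Alg K × Alg K → ℝ} (hw : Test w) (h : ∀ P, Distinct P → w' P = w P) :
    Test w' := by
  intro ε hε
  obtain ⟨k, g, Φ, hg, hΦ, h1⟩ := hw ε hε
  exact ⟨k, g, Φ, hg, hΦ, fun P hP => by rw [h P hP]; exact h1 P hP⟩

lemma Test.comp (hodd : Odd (deg K)) (hn : 5 ≤ deg K) {w : Alg K × Alg K → ℝ} (hw : Test w)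
    {Ψ : ℝ → ℝ} (hΨ : Continuous Ψ) : Test (fun P => Ψ (w P)) := by
  obtain ⟨W, hW0, hW⟩ := hw.bdd hodd hn
  have huc : UniformContinuousOn Ψ (Set.Icc (-(W + 1)) (W + 1)) :=
    isCompact_Icc.uniformContinuousOn_of_continuous hΨ.continuousOn
  rw [Metric.uniformContinuousOn_iff] at huc
  rw [test_iff]
  intro ε hε
  obtain ⟨δ, hδ, hδ'⟩ := huc ε hε
  obtain ⟨u, hu, h1⟩ := test_iff.1 hw (min 1 (δ / 2)) (lt_min one_pos (by positivity))
  refine ⟨_, hu.map2 hu (Ψ := fun a _ => Ψ a) (hΨ.comp continuous_fst), fun P hP => ?_⟩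
  have h2 := h1 P hP
  have h3 := h2.trans (min_le_left _ _)
  have h4 := h2.trans (min_le_right _ _)
  obtain ⟨h5, h6⟩ := abs_le.1 (hW P hP)
  obtain ⟨h7, h8⟩ := abs_le.1 h3
  have h9 := hδ' (w P) ⟨by linarith, by linarith⟩ (u P) ⟨by linarith, by linarith⟩ (by
    rw [Real.dist_eq]
    linarith)
  rw [Real.dist_eq] at h9
  exact h9.le

lemma Change.inv (hn : 5 ≤ deg K) {m : Alg K × Alg K → ℝ} (hm : Change m) (P P' : Alg K × Alg K)
    (hP : Distinct P) (h : Equivalent P P') : m P' = m P := hm.1.inv hn hP h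

lemma Change.pos {m : Alg K × Alg K → ℝ} (hm : Change m) (P : Alg K × Alg K) (hP : Distinct P) :
    0 < m P := by
  obtain ⟨-, δ, hδ, h⟩ := hm
  exact lt_of_lt_of_le hδ (h P hP)

lemma Change.neg_log (hodd : Odd (deg K)) (hn : 5 ≤ deg K) {m : Alg K × Alg K → ℝ}
    (hm : Change m) : Test (fun P => -Real.log (m P)) := by
  obtain ⟨h1, δ, hδ, h⟩ := hm
  have hc : Continuous (fun t : ℝ => -Real.log (max δ t)) := by
    have h2 : Continuous (fun t : ℝ => max δ t) := by fun_prop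
    exact (h2.log fun t => (lt_of_lt_of_le hδ (le_max_left _ _)).ne').neg
  refine (h1.comp hodd hn hc).congr fun P hP => ?_
  simp only [max_eq_right (h P hP)]

lemma Test.div (hodd : Odd (deg K)) (hn : 5 ≤ deg K) {m w : Alg K × Alg K → ℝ} (hm : Change m)
    (hw : Test w) : Test (fun P => w P / m P) := by
  have h1 := hw.mul hodd hn ((hm.neg_log hodd hn).comp hodd hn Real.continuous_exp)
  refine h1.congr fun P hP => ?_
  rw [Real.exp_neg, Real.exp_log (hm.pos P hP), div_eq_mul_inv]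

lemma Factor.change (hn : 5 ≤ deg K) {m : Alg K × Alg K → ℝ} (hm : Factor m) : Change m := by
  refine ⟨hm.test, ?_⟩
  obtain ⟨M, hM⟩ := (hm.log hn).bdd hn
  refine ⟨Real.exp (-M), Real.exp_pos _, fun P hP => ?_⟩
  have h1 := (abs_le.1 (hM P hP)).1
  rw [← Real.exp_log (hm.pos hn hP)]
  exact Real.exp_le_exp.2 h1

/-! ### the functional -/

/-- the functional (not normalised) -/
noncomputable def lam (w : Alg K × Alg K → ℝ) : ℝ :=
  Lim (hL (K := K)) (Fintype.card s - 1) (fun x => w (rep x))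

lemma lam_all (hodd : Odd (deg K)) (hn : 5 ≤ deg K) {m w : Alg K × Alg K → ℝ} (hm : Change m)
    (hw : Test w) : Tendsto (fun u => cnt (hL (K := K)) (fun x => w (rep x))
      (fun x => -Real.log (m (rep x))) u / nu (Fintype.card s - 1) u) atTop
      (𝓝 (lam (fun P => w P / m P))) := by
  have hl := hm.neg_log hodd hn
  obtain ⟨M, -, hM⟩ := hl.bdd hodd hn
  obtain ⟨W, -, hW⟩ := hw.bdd hodd hn
  have h1 := gen (hyp hodd hn) (w := fun x => w (rep x)) (f₀ := fun x => -Real.log (m (rep x)))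
    (fun x => hM _ (rep_distinct x)) (fun x => hW _ (rep_distinct x))
    (fun Ψ hΨ => (hw.mul hodd hn (hl.comp hodd hn hΨ)).good hodd hn)
    (fun Ψ hΨ => (hl.comp hodd hn hΨ).good hodd hn)
  have h2 : (fun x : Pt K => w (rep x) * Real.exp (-Real.log (m (rep x)))) =
      fun x => w (rep x) / m (rep x) := by
    funext x
    rw [Real.exp_neg, Real.exp_log (hm.pos _ (rep_distinct x)), div_eq_mul_inv]
  rw [h2] at h1
  exact h1

lemma ncard_cnt (hodd : Odd (deg K)) (hn : 5 ≤ deg K) {m : Alg K × Alg K → ℝ} (hm : Change m)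
    (u : ℝ) : ({x : Pt K | hL x ≤ u + -Real.log (m (rep x))}.ncard : ℝ) =
      cnt (hL (K := K)) (fun _ => 1) (fun x => -Real.log (m (rep x))) u := by
  obtain ⟨M, -, hM⟩ := (hm.neg_log hodd hn).bdd hodd hn
  exact cnt_ncard (fin_all hodd hn) (fun x => hM _ (rep_distinct x)) u

lemma lam_one (hodd : Odd (deg K)) (hn : 5 ≤ deg K) : 0 < lam (K := K) (fun _ => 1) := by
  obtain ⟨c, hc, h⟩ := asym hodd hn (factor_one (K := K))
  have hch := (factor_one (K := K)).change hn
  have h1 := lam_all hodd hn hch (test_const 1)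
  have h2 : c = lam (K := K) (fun _ => 1 / 1) := by
    refine tendsto_nhds_unique (h.congr fun u => ?_) h1
    rw [ncard_cnt hodd hn hch]
  rw [_root_.div_one] at h2
  rw [← h2]
  exact hc

lemma lam_pos (hodd : Odd (deg K)) (hn : 5 ≤ deg K) {m : Alg K × Alg K → ℝ} (hm : Change m) :
    0 < lam (fun P => 1 / m P) := by
  obtain ⟨W, hW0, hW⟩ := hm.1.bdd hodd hn
  have h1 := lam_one (K := K) hodd hn
  have h2 : 1 / W * lam (K := K) (fun _ => 1) ≤ lam (fun P => 1 / m P) := by
    unfold lam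
    rw [← Lim_smul (hyp hodd hn) ((test_const 1).good hodd hn)]
    refine Lim_mono (hyp hodd hn) (((test_const 1).good hodd hn).smul (hyp hodd hn) _)
      (((test_const 1).div hodd hn hm).good hodd hn) fun x => ?_
    rw [mul_one]
    exact one_div_le_one_div_of_le (hm.pos _ (rep_distinct x))
      ((le_abs_self _).trans (hW _ (rep_distinct x)))
  exact lt_of_lt_of_le (by positivity) h2

lemma lam_count (hodd : Odd (deg K)) (hn : 5 ≤ deg K) {m : Alg K × Alg K → ℝ} (hm : Change m) :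
    Tendsto (fun B : ℝ => ((below m B).ncard : ℝ) / (B * Real.log B ^ (Fintype.card s - 1))) atTop
      (𝓝 (lam (fun P => 1 / m P))) := by
  refine ((lam_all hodd hn hm (test_const 1)).comp Real.tendsto_log_atTop).congr' ?_
  filter_upwards [eventually_gt_atTop 0] with B hB
  simp only [Function.comp, nu, Real.exp_log hB]
  rw [card_below hodd hn (hm.inv hn) hm.pos hB, ncard_cnt hodd hn hm]

lemma lam_mean (hodd : Odd (deg K)) (hn : 5 ≤ deg K) {m w : Alg K × Alg K → ℝ} (hm : Change m)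
    (hw : Test w) :
    Tendsto (mean m w) atTop (𝓝 (lam (fun P => w P / m P) / lam (fun P => 1 / m P))) := by
  have h1 := (lam_all hodd hn hm hw).comp Real.tendsto_log_atTop
  have h2 := (lam_all hodd hn hm (test_const 1)).comp Real.tendsto_log_atTop
  refine (h1.div h2 (lam_pos hodd hn hm).ne').congr' ?_
  filter_upwards [eventually_gt_atTop 1] with B hB
  have hB0 : 0 < B := by linarith
  have h3 : nu (Fintype.card s - 1) (Real.log B) ≠ 0 := (nu_pos (Real.log_pos hB)).ne'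
  simp only [Function.comp, Pi.div_apply]
  rw [div_div_div_cancel_right₀ h3]
  unfold mean
  rw [sum_below hodd hn (hm.inv hn) hm.pos (fun P P' hP h => hw.inv hn hP h) hB0,
    card_below hodd hn (hm.inv hn) hm.pos hB0, ncard_cnt hodd hn hm]

end

/-- **Equidistribution of the rational points on the forms of `(ℙ¹)ⁿ // SL₂`, `n ≥ 5` odd.** There
are a positive normalised linear functional `ν` on the algebra of test functions and `c > 0` such that,
for each continuous height `ht · m` (all adelic heights, maxima and sums of adelic heights, ...), the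
number of points of height at most `B` is asymptotically equal to `c ν(1/m) B (log B) ^ (r - 1)`, and
the mean of each test function `w` over these points converges to `ν(w/m) / ν(1/m)`. -/
theorem result {s : Type} [Fintype s] [DecidableEq s] (K : s → Type) [∀ i, Field (K i)]
    [∀ i, NumberField (K i)] (hodd : Odd (deg K)) (hn : 5 ≤ deg K) :
    ((∀ c : ℝ, Test (K := K) (fun _ => c)) ∧
      (∀ m : Alg K × Alg K → ℝ, Factor m → Change m) ∧
      (∀ w w' : Alg K × Alg K → ℝ, Test w → Test w' →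
        (∀ a : ℝ, Test (fun P => a * w P + w' P)) ∧ Test (fun P => w P * w' P)) ∧
      (∀ (w : Alg K × Alg K → ℝ) (Ψ : ℝ → ℝ), Test w → Continuous Ψ → Test (fun P => Ψ (w P))) ∧
      (∀ m w : Alg K × Alg K → ℝ, Change m → Test w → Test (fun P => w P / m P)) ∧
      ∀ w : Alg K × Alg K → ℝ, Test w → ∀ P, Distinct P → value w {P' | Equivalent P P'} = w P) ∧
    ∃ (c : ℝ) (ν : (Alg K × Alg K → ℝ) → ℝ), 0 < c ∧ ν (fun _ => 1) = 1 ∧
      (∀ w w' : Alg K × Alg K → ℝ, Test w → Test w' → ∀ a : ℝ,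
        ν (fun P => a * w P + w' P) = a * ν w + ν w') ∧
      (∀ w : Alg K × Alg K → ℝ, Test w → (∀ P, Distinct P → 0 ≤ w P) → 0 ≤ ν w) ∧
      ∀ m : Alg K × Alg K → ℝ, Change m → 0 < ν (fun P => 1 / m P) ∧
        Tendsto (fun B : ℝ => ((below m B).ncard : ℝ) /
          (B * Real.log B ^ (Fintype.card s - 1))) atTop (𝓝 (c * ν (fun P => 1 / m P))) ∧
        ∀ w : Alg K × Alg K → ℝ, Test w →
          Tendsto (mean m w) atTop (𝓝 (ν (fun P => w P / m P) / ν (fun P => 1 / m P))) := by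
  have h1 : 0 < lam (K := K) (fun _ => 1) := lam_one hodd hn
  refine ⟨⟨test_const, fun m hm => hm.change hn, fun w w' hw hw' =>
    ⟨fun a => hw.lin hw' a, hw.mul hodd hn hw'⟩, fun w Ψ hw hΨ => hw.comp hodd hn hΨ,
    fun m w hm hw => hw.div hodd hn hm,
    fun w hw P hP => ?_⟩, lam (K := K) (fun _ => 1), fun w => lam w / lam (K := K) (fun _ => 1), h1,
    div_self h1.ne', ?_, ?_, fun m hm => ⟨div_pos (lam_pos hodd hn hm) h1, ?_, fun w hw => ?_⟩⟩
  · obtain ⟨x, hx, hE⟩ := exists_rep hP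
    rw [← hx, value_eq (fun P P' hP h => hw.inv hn hP h), ← hw.inv hn (rep_distinct x) hE]
  · intro w w' hw hw' a
    have h2 : lam (fun P => a * w P + w' P) = a * lam w + lam w' := by
      unfold lam
      rw [Lim_add (hyp hodd hn) ((hw.good hodd hn).smul (hyp hodd hn) a) (hw'.good hodd hn),
        Lim_smul (hyp hodd hn) (hw.good hodd hn)]
    simp only [h2, add_div, mul_div_assoc]
  · intro w hw h0
    exact div_nonneg (Lim_nonneg (hyp hodd hn) (hw.good hodd hn) fun x => h0 _ (rep_distinct x)) h1.le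
  · have h2 := lam_count hodd hn hm
    have h3 : lam (K := K) (fun _ => 1) * (lam (fun P => 1 / m P) / lam (K := K) (fun _ => 1)) =
        lam (fun P => 1 / m P) := by field_simp
    rw [h3]
    exact h2
  · have h2 := lam_mean hodd hn hm hw
    simp only []
    rw [div_div_div_cancel_right₀ h1.ne']
    exact h2

end Pool.Agent.Results.MP_1acd66_nt.Equidistribution
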