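import Pool.Agent.Results.MP_1acd66_nt.Equidistribution
import Pool.Agent.X79.EQP.Glue
import Pool.Agent.X322.PR.L1
import Pool.Agent.X7.EQP.SW
import Pool.Agent.X87.EQP.CONV

/-!
# Manin's conjecture for the products of two forms of `(ℙ¹)ⁿ // SL₂`, all continuous heights

Let `n, n' ≥ 5` be odd and let `V_A`, `V_A'` be the forms of `(ℙ¹)ⁿ // SL₂` and `(ℙ¹)ⁿ' // SL₂` over `ℚ`
given by etale algebras `A`, `A'` of degrees `n`, `n'`, products of `r` and `r'` number fields (for
`n = n' = 5`: products of two quintic del Pezzo surfaces over `ℚ`). The product `V_A × V_A'` is a smooth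
Fano variety with Picard number `r + r'`. The anticanonical heights on the product are `ht(P) ht(Q)
m(P, Q)`, where `m` is a positive continuous function on the product of the spaces of `v`-adic points:
a uniform limit of continuous functions of finitely many factors of the two coordinates. In general
they are not products of heights of the two coordinates. For all of them the number of points of the
open subset `U × U'` of height at most `B` is asymptotically equal to `c B (log B) ^ (r + r' - 1)`,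
`c > 0`.
-/

set_option autoImplicit false
set_option linter.unusedSectionVars false

namespace Pool.Agent.Results.MP_1acd66_nt.Products

open NumberField Module Filter Topology
open Pool.Agent.Results.MP_1acd66_nt.AllForms (Alg deg ht Distinct Equivalent)
open Pool.Agent.Results.MP_1acd66_nt.Equidistribution (Factor Pt rep rep_distinct rep_eq hL addF
  hyp fin_all ht_inv ht_pos nd_of eq_refl lam_one exists_rep)
open Pool.Agent.X79.EQ Pool.Agent.X79.EQP

section

variable {s : Type} [Fintype s] [DecidableEq s] {K : s → Type} [∀ i, Field (K i)]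
  [∀ i, NumberField (K i)] {s' : Type} [Fintype s'] [DecidableEq s'] {K' : s' → Type}
  [∀ i, Field (K' i)] [∀ i, NumberField (K' i)]

/-- `m` is a continuous function on the product of the spaces of `v`-adic points of `V_A × V_A'`: a
uniform limit of continuous functions of finitely many factors of the two coordinates -/
def Test2 (m : (Alg K × Alg K) × (Alg K' × Alg K') → ℝ) : Prop :=
  ∀ ε : ℝ, 0 < ε → ∃ (k k' : ℕ) (g : Fin k → Alg K × Alg K → ℝ) (g' : Fin k' → Alg K' × Alg K' → ℝ)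
    (Φ : (Fin k → ℝ) × (Fin k' → ℝ) → ℝ), (∀ i, Factor (g i)) ∧ (∀ i, Factor (g' i)) ∧
    ContinuousOn Φ {y | (∀ i, 0 < y.1 i) ∧ ∀ i, 0 < y.2 i} ∧
    ∀ P Q, Distinct P → Distinct Q → |m (P, Q) - Φ (fun i => g i P, fun i => g' i Q)| ≤ ε

lemma Test2.inv (hn : 5 ≤ deg K) (hn' : 5 ≤ deg K') {m : (Alg K × Alg K) × (Alg K' × Alg K') → ℝ}
    (hm : Test2 m) {P P' : Alg K × Alg K} {Q Q' : Alg K' × Alg K'} (hP : Distinct P)
    (hQ : Distinct Q) (h : Equivalent P P') (h' : Equivalent Q Q') : m (P', Q') = m (P, Q) := by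
  by_contra hne
  have h0 : 0 < |m (P', Q') - m (P, Q)| := abs_pos.2 (sub_ne_zero.2 hne)
  obtain ⟨k, k', g, g', Φ, hg, hg', -, h1⟩ := hm (|m (P', Q') - m (P, Q)| / 3) (by positivity)
  have h2 := h1 P Q hP hQ
  have h3 := h1 P' Q' (nd_of hP h) (nd_of hQ h')
  have e1 : (fun i => g i P') = fun i => g i P := funext fun i => (hg i).inv hn hP h
  have e2 : (fun i => g' i Q') = fun i => g' i Q := funext fun i => (hg' i).inv hn' hQ h'
  rw [e1, e2] at h3
  have h4 : |m (P', Q') - m (P, Q)| ≤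
      |m (P', Q') - Φ (fun i => g i P, fun i => g' i Q)| +
      |m (P, Q) - Φ (fun i => g i P, fun i => g' i Q)| := by
    rw [abs_sub_comm (m (P, Q))]
    exact abs_sub_le _ _ _
  linarith

/-- the elementary functions -/
lemma elem_good (hC : S_CONV) (hSW : S_SW) (hodd : Odd (deg K)) (hn : 5 ≤ deg K)
    (hodd' : Odd (deg K')) (hn' : 5 ≤ deg K') {k k' : ℕ} {g : Fin k → Alg K × Alg K → ℝ}
    {g' : Fin k' → Alg K' × Alg K' → ℝ} {Φ : (Fin k → ℝ) × (Fin k' → ℝ) → ℝ}
    (hg : ∀ i, Factor (g i)) (hg' : ∀ i, Factor (g' i))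
    (hΦ : ContinuousOn Φ {y | (∀ i, 0 < y.1 i) ∧ ∀ i, 0 < y.2 i}) :
    Good (fun x : Pt K × Pt K' => hL x.1 + hL x.2) (FC (Pt K × Pt K'))
      ((Fintype.card s - 1) + (Fintype.card s' - 1) + 1)
      (fun x => Φ (fun i => g i (rep x.1), fun i => g' i (rep x.2))) := by
  have hc : Continuous (fun y : (Fin k → ℝ) × (Fin k' → ℝ) =>
      Φ (fun i => Real.exp (y.1 i), fun i => Real.exp (y.2 i))) :=
    hΦ.comp_continuous (by fun_prop) (fun y => ⟨fun i => Real.exp_pos _, fun i => Real.exp_pos _⟩)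
  have h1 := prod_good hC (hyp (K := K) hodd hn) (hyp (K := K') hodd' hn') hSW
    (g₁ := fun i x => Real.log (g i (rep x))) (g₂ := fun i x => Real.log (g' i (rep x)))
    (fun i => ⟨_, (hg i).log hn, fun _ => rfl⟩) (fun i => ⟨_, (hg' i).log hn', fun _ => rfl⟩) hc
  have h2 : (fun x : Pt K × Pt K' => Φ (fun i => g i (rep x.1), fun i => g' i (rep x.2))) =
      fun x => Φ (fun i => Real.exp (Real.log (g i (rep x.1))),
        fun i => Real.exp (Real.log (g' i (rep x.2)))) := by
    funext x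
    congr 1
    refine Prod.ext (funext fun i => ?_) (funext fun i => ?_)
    · exact (Real.exp_log ((hg i).pos hn (rep_distinct x.1))).symm
    · exact (Real.exp_log ((hg' i).pos hn' (rep_distinct x.2))).symm
  rw [h2]
  exact h1

lemma test2_good (hC : S_CONV) (hSW : S_SW) (hodd : Odd (deg K)) (hn : 5 ≤ deg K)
    (hodd' : Odd (deg K')) (hn' : 5 ≤ deg K') {m : (Alg K × Alg K) × (Alg K' × Alg K') → ℝ}
    (hm : Test2 m) : Good (fun x : Pt K × Pt K' => hL x.1 + hL x.2) (FC (Pt K × Pt K'))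
      ((Fintype.card s - 1) + (Fintype.card s' - 1) + 1) (fun x => m (rep x.1, rep x.2)) := by
  have HC := hypC hC (hyp (K := K) hodd hn) (hyp (K := K') hodd' hn')
  refine Good.unif HC ?_ ?_
  · obtain ⟨k, k', g, g', Φ, hg, hg', hΦ, h2⟩ := hm 1 one_pos
    obtain ⟨W, hW⟩ := (elem_good hC hSW hodd hn hodd' hn' hg hg' hΦ).1
    refine ⟨1 + W, fun x => ?_⟩
    have e : m (rep x.1, rep x.2) = (m (rep x.1, rep x.2) -
        Φ (fun i => g i (rep x.1), fun i => g' i (rep x.2))) +
        Φ (fun i => g i (rep x.1), fun i => g' i (rep x.2)) := by ring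
    rw [e]
    exact (abs_add_le _ _).trans (add_le_add (h2 _ _ (rep_distinct _) (rep_distinct _)) (hW x))
  · intro ε hε
    obtain ⟨k, k', g, g', Φ, hg, hg', hΦ, h2⟩ := hm ε hε
    exact ⟨_, elem_good hC hSW hodd hn hodd' hn' hg hg' hΦ,
      fun x => h2 _ _ (rep_distinct _) (rep_distinct _)⟩

lemma test2_comp {m : (Alg K × Alg K) × (Alg K' × Alg K') → ℝ} (hm : Test2 m) {W : ℝ}
    (hW : ∀ P Q, Distinct P → Distinct Q → |m (P, Q)| ≤ W) {Ψ : ℝ → ℝ} (hΨ : Continuous Ψ) :
    Test2 (fun z => Ψ (m z)) := by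
  have huc : UniformContinuousOn Ψ (Set.Icc (-(W + 1)) (W + 1)) :=
    isCompact_Icc.uniformContinuousOn_of_continuous hΨ.continuousOn
  rw [Metric.uniformContinuousOn_iff] at huc
  intro ε hε
  obtain ⟨δ, hδ, hδ'⟩ := huc ε hε
  obtain ⟨k, k', g, g', Φ, hg, hg', hΦ, h1⟩ := hm (min 1 (δ / 2)) (lt_min one_pos (by positivity))
  refine ⟨k, k', g, g', fun y => Ψ (Φ y), hg, hg', hΨ.comp_continuousOn hΦ, fun P Q hP hQ => ?_⟩
  have h2 := h1 P Q hP hQ
  have h3 := h2.trans (min_le_left _ _)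
  have h4 := h2.trans (min_le_right _ _)
  obtain ⟨h5, h6⟩ := abs_le.1 (hW P Q hP hQ)
  obtain ⟨h7, h8⟩ := abs_le.1 h3
  have h9 := hδ' (m (P, Q)) ⟨by linarith, by linarith⟩ (Φ (fun i => g i P, fun i => g' i Q))
    ⟨by linarith, by linarith⟩ (by
    rw [Real.dist_eq]
    linarith)
  rw [Real.dist_eq] at h9
  exact h9.le

lemma card_pos_of (hn : 5 ≤ deg K) : 0 < Fintype.card s := by
  rw [Fintype.card_pos_iff]
  by_contra h
  rw [not_nonempty_iff] at h
  have : deg K = 0 := by
    unfold AllForms.deg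
    exact Finset.sum_of_isEmpty _
  omega

end

/-- the main theorem, from the parts -/
theorem main (hC : S_CONV) (hSW : S_SW) {s : Type} [Fintype s] [DecidableEq s] (K : s → Type)
    [∀ i, Field (K i)] [∀ i, NumberField (K i)] {s' : Type} [Fintype s'] [DecidableEq s']
    (K' : s' → Type) [∀ i, Field (K' i)] [∀ i, NumberField (K' i)] (hodd : Odd (deg K))
    (hn : 5 ≤ deg K) (hodd' : Odd (deg K')) (hn' : 5 ≤ deg K')
    (m : (Alg K × Alg K) × (Alg K' × Alg K') → ℝ) (hm : Test2 m)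
    (hδ : ∃ δ : ℝ, 0 < δ ∧ ∀ P Q, Distinct P → Distinct Q → δ ≤ m (P, Q)) :
    ∃ c : ℝ, 0 < c ∧ Tendsto (fun B : ℝ =>
      ({C : Set (Alg K × Alg K) × Set (Alg K' × Alg K') | ∃ P Q, Distinct P ∧ Distinct Q ∧
        C = ({P' | Equivalent P P'}, {Q' | Equivalent Q Q'}) ∧ ht P * ht Q * m (P, Q) ≤ B}.ncard : ℝ) /
        (B * Real.log B ^ (Fintype.card s + Fintype.card s' - 1))) atTop (𝓝 c) := by
  obtain ⟨δ, hδ0, hδ⟩ := hδ
  have hg := test2_good hC hSW hodd hn hodd' hn' hm
  obtain ⟨W, hW⟩ := hg.1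
  have hinv := fun {P P' : Alg K × Alg K} {Q Q' : Alg K' × Alg K'} (hP : Distinct P)
    (hQ : Distinct Q) (h : Equivalent P P') (h' : Equivalent Q Q') => hm.inv hn hn' hP hQ h h'
  have hWall : ∀ P Q, Distinct P → Distinct Q → |m (P, Q)| ≤ |W| + 1 := by
    intro P Q hP hQ
    obtain ⟨x, -, hE⟩ := exists_rep hP
    obtain ⟨y, -, hE'⟩ := exists_rep hQ
    rw [hinv (rep_distinct x) (rep_distinct y) hE hE']
    have h1 := hW (x, y)
    have h2 := le_abs_self W
    simp only at h1
    linarith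
  have hlogc : Continuous (fun t : ℝ => -Real.log (max δ t)) := by
    have h2 : Continuous (fun t : ℝ => max δ t) := by fun_prop
    exact (h2.log fun t => (lt_of_lt_of_le hδ0 (le_max_left _ _)).ne').neg
  have hpos : ∀ x : Pt K × Pt K', 0 < m (rep x.1, rep x.2) := fun x =>
    lt_of_lt_of_le hδ0 (hδ _ _ (rep_distinct _) (rep_distinct _))
  have hmax : ∀ x : Pt K × Pt K', max δ (m (rep x.1, rep x.2)) = m (rep x.1, rep x.2) := fun x =>
    max_eq_right (hδ _ _ (rep_distinct _) (rep_distinct _))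
  have hΨ : ∀ Ψ : ℝ → ℝ, Continuous Ψ → Good (fun x : Pt K × Pt K' => hL x.1 + hL x.2)
      (FC (Pt K × Pt K')) ((Fintype.card s - 1) + (Fintype.card s' - 1) + 1)
      (fun x => Ψ (-Real.log (m (rep x.1, rep x.2)))) := by
    intro Ψ hc
    have h1 := test2_comp hm hWall (hc.comp hlogc)
    have h2 := test2_good hC hSW hodd hn hodd' hn' h1
    simp only [Function.comp, hmax] at h2
    exact h2
  obtain ⟨M, hM⟩ := (hΨ id continuous_id).1
  simp only [id] at hM
  have p₁ : 0 < Lim (hL (K := K)) (Fintype.card s - 1) (fun _ => 1) := lam_one hodd hn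
  have p₂ : 0 < Lim (hL (K := K')) (Fintype.card s' - 1) (fun _ => 1) := lam_one hodd' hn'
  obtain ⟨c, hc, hlim⟩ := final hC (hyp (K := K) hodd hn) (hyp (K := K') hodd' hn') hM p₁ p₂ hΨ
  refine ⟨c, hc, (hlim.comp Real.tendsto_log_atTop).congr' ?_⟩
  filter_upwards [eventually_gt_atTop 0] with B hB
  have hexp : (Fintype.card s - 1) + (Fintype.card s' - 1) + 1 =
      Fintype.card s + Fintype.card s' - 1 := by
    have := card_pos_of hn
    have := card_pos_of hn'
    omega
  simp only [Function.comp, nu, Real.exp_log hB, hexp]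
  congr 1
  have hfin : Fin' (fun x : Pt K × Pt K' => hL x.1 + hL x.2) :=
    fin_prod (fin_all hodd hn) (fin_all hodd' hn')
  rw [← cnt_ncard hfin hM]
  have hinj : Function.Injective (fun x : Pt K × Pt K' => (x.1.1, x.2.1)) := by
    intro x y hxy
    have h1 := (Prod.mk.injEq _ _ _ _).mp hxy
    exact Prod.ext (Subtype.ext h1.1) (Subtype.ext h1.2)
  rw [← Set.ncard_image_of_injective _ hinj]
  congr 1
  congr 1
  have hcond : ∀ x : Pt K × Pt K', ht (rep x.1) * ht (rep x.2) * m (rep x.1, rep x.2) ≤ B ↔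
      hL x.1 + hL x.2 ≤ Real.log B + -Real.log (m (rep x.1, rep x.2)) := by
    intro x
    have h1 := ht_pos hodd hn (rep_distinct x.1)
    have h2 := ht_pos hodd' hn' (rep_distinct x.2)
    have h3 := hpos x
    rw [← Real.log_le_log_iff (mul_pos (mul_pos h1 h2) h3) hB, Real.log_mul (mul_pos h1 h2).ne' h3.ne',
      Real.log_mul h1.ne' h2.ne']
    unfold Equidistribution.hL
    constructor <;> intro h <;> linarith
  ext C
  constructor
  · rintro ⟨x, hx, rfl⟩
    exact ⟨rep x.1, rep x.2, rep_distinct _, rep_distinct _, Prod.ext (rep_eq x.1) (rep_eq x.2),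
      (hcond x).2 hx⟩
  · rintro ⟨P, Q, hP, hQ, rfl, hle⟩
    obtain ⟨x, hx, hE⟩ := exists_rep hP
    obtain ⟨y, hy, hE'⟩ := exists_rep hQ
    refine ⟨(x, y), ?_, Prod.ext hx hy⟩
    rw [(ht_inv hodd hn (rep_distinct x) hE).2, (ht_inv hodd' hn' (rep_distinct y) hE').2,
      hinv (rep_distinct x) (rep_distinct y) hE hE'] at hle
    exact (hcond (x, y)).1 hle

/-- **Manin's conjecture for the products `V_A × V_A'`, all continuous heights.** -/
theorem result {s : Type} [Fintype s] [DecidableEq s] (K : s → Type) [∀ i, Field (K i)]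
    [∀ i, NumberField (K i)] {s' : Type} [Fintype s'] [DecidableEq s'] (K' : s' → Type)
    [∀ i, Field (K' i)] [∀ i, NumberField (K' i)] (hodd : Odd (deg K)) (hn : 5 ≤ deg K)
    (hodd' : Odd (deg K')) (hn' : 5 ≤ deg K')
    (m : (Alg K × Alg K) × (Alg K' × Alg K') → ℝ) (hm : Test2 m)
    (hδ : ∃ δ : ℝ, 0 < δ ∧ ∀ P Q, Distinct P → Distinct Q → δ ≤ m (P, Q)) :
    ∃ c : ℝ, 0 < c ∧ Tendsto (fun B : ℝ =>
      ({C : Set (Alg K × Alg K) × Set (Alg K' × Alg K') | ∃ P Q, Distinct P ∧ Distinct Q ∧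
        C = ({P' | Equivalent P P'}, {Q' | Equivalent Q Q'}) ∧ ht P * ht Q * m (P, Q) ≤ B}.ncard : ℝ) /
        (B * Real.log B ^ (Fintype.card s + Fintype.card s' - 1))) atTop (𝓝 c) :=
  main (Pool.Agent.X87.EQP.t_CONV Pool.Agent.X322.PR.t_L1) Pool.Agent.X7.EQP.t_SW K K' hodd hn hodd'
    hn' m hm hδ

end Pool.Agent.Results.MP_1acd66_nt.Products
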